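import Pool.Agent.helper83.FI4B.Spec

/-!
# Project fi4, version FI4+ (MP_baa4d7_al): row BST
-/

set_option autoImplicit false

namespace Pool.Agent.FI4B

open Pool.Agent.helper58.DC Pool.Agent.DI Pool.Agent.GR Pool.Agent.OB Pool.Agent.DR Pool.Agent.FI Pool.Agent.FI3 Pool.Agent.FI4

theorem BST_cz_bot (G : Type) [Group G] : cz (⊥ : Subgroup G) = ⊤ := by
  rw [eq_top_iff]
  intro x _
  rw [Subgroup.mem_centralizer_iff]
  intro y hy
  have h1 : y = 1 := Subgroup.mem_bot.1 hy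
  rw [h1, one_mul, mul_one]

theorem BST_crt {p N : ℕ} (hp : p.Prime) (hN : 0 < N) {s : ℕ} (hs : ¬ p ∣ s) :
    ∃ s' : ℕ, s'.Coprime N ∧ (∀ d : ℕ, d ∣ N → ¬ p ∣ d → s' ≡ 1 [MOD d]) ∧
      ∀ k : ℕ, p ^ k ∣ N → s' ≡ s [MOD p ^ k] := by
  obtain ⟨a, k, hk, hN'⟩ := Nat.exists_eq_pow_mul_and_not_dvd hN.ne' p hp.ne_one
  have hcop : (p ^ a).Coprime k := Nat.Coprime.pow_left a ((Nat.Prime.coprime_iff_not_dvd hp).2 hk)
  obtain ⟨s', h1, h2⟩ := Nat.chineseRemainder hcop s 1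
  have hs'1 : s'.Coprime k := by
    have h3 : Nat.gcd s' k = Nat.gcd 1 k := h2.gcd_eq
    unfold Nat.Coprime
    rw [h3, Nat.gcd_one_left]
  have hsp : s.Coprime (p ^ a) := Nat.Coprime.pow_right a ((Nat.Prime.coprime_iff_not_dvd hp).2 hs).symm
  have hs'2 : s'.Coprime (p ^ a) := by
    have h3 : Nat.gcd s' (p ^ a) = Nat.gcd s (p ^ a) := h1.gcd_eq
    unfold Nat.Coprime
    rw [h3]
    exact hsp
  refine ⟨s', ?_, ?_, ?_⟩
  · rw [hN']
    exact Nat.Coprime.mul_right hs'2 hs'1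
  · intro d hd hpd
    have h3 : d ∣ k := by
      have h4 : d.Coprime (p ^ a) := (Nat.Coprime.pow_left a ((Nat.Prime.coprime_iff_not_dvd hp).2 hpd)).symm
      rw [hN'] at hd
      exact h4.dvd_of_dvd_mul_left hd
    exact h2.of_dvd h3
  · intro j hj
    have h3 : p ^ j ∣ p ^ a := by
      have h4 : (p ^ j).Coprime k := Nat.Coprime.pow_left j ((Nat.Prime.coprime_iff_not_dvd hp).2 hk)
      rw [hN'] at hj
      exact h4.dvd_of_dvd_mul_right hj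
    exact h1.of_dvd h3

theorem BST_pow {p : ℕ} {G : Type} [Group G] [Finite G] {D : Subgroup G} (hD : IsPGroup p D) (hp : p.Prime) {s s' : ℕ}
    (h : ∀ k : ℕ, p ^ k ∣ Nat.card G → s' ≡ s [MOD p ^ k]) {u : G} (hu : u ∈ D) : u ^ s' = u ^ s := by
  have : Fact p.Prime := ⟨hp⟩
  obtain ⟨k, hk⟩ := IsPGroup.iff_orderOf.1 hD ⟨u, hu⟩
  have h1 : orderOf u = p ^ k := by
    rw [← hk]
    exact Subgroup.orderOf_coe (⟨u, hu⟩ : D)
  rw [pow_eq_pow_iff_modEq, h1]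
  exact h k (h1 ▸ orderOf_dvd_natCard u)

theorem BST_PR {G : Type} [Group G] {m : ℕ} {ψ : G → ℂ} (h : PR m ψ) (j : ℕ) : ∀ g, ψ (g ^ (m ^ j)) = ψ g := by
  induction j with
  | zero => intro g; rw [pow_zero, pow_one]
  | succ j ih =>
    intro g
    rw [pow_succ, pow_mul, h, ih]

theorem BST_perm (hZT4 : ZT4_stmt) {G : Type} [Group G] [Finite G] (H : Subgroup G) {s : ℕ} (hs : s.Coprime (Nat.card G)) :
    ∃ π : Equiv.Perm ↥(IrrOn H), ∀ ψ : ↥(IrrOn H), ((π ψ : ↥(IrrOn H)) : G → ℂ) = fun g => (ψ : G → ℂ) (g ^ s) := by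
  have hfin : Finite ↥(IrrOn H) := (IrrOn_fin H).to_subtype
  have h1 : Function.Injective (fun ψ : ↥(IrrOn H) =>
      (⟨fun g => (ψ : G → ℂ) (g ^ s), hZT4 G s hs H ψ ψ.2⟩ : ↥(IrrOn H))) := by
    intro ψ φ h
    have h2 : (fun g => (ψ : G → ℂ) (g ^ s)) = fun g => (φ : G → ℂ) (g ^ s) := congrArg Subtype.val h
    refine Subtype.ext (funext fun g => ?_)
    obtain ⟨g', hg'⟩ := (powCoprime hs.symm).surjective g
    have h3 : g' ^ s = g := hg'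
    have h4 := congrFun h2 g'
    simp only [h3] at h4
    exact h4
  exact ⟨Equiv.ofBijective _ (Finite.injective_iff_bijective.1 h1), fun ψ => rfl⟩

theorem BST_bps (hBPS : BPS_stmt) {p : ℕ} {M : Ideal (integralClosure ℤ ℂ)} (hS : Setup p M) (hp2 : p ≠ 2) {D : Type}
    [Group D] [Finite D] (com : ∀ a b : D, a * b = b * a)
    (X : Type) [Fintype X] (R : Set D) (I : Subgroup (MulAut D)) (β d : X → D → ℂ) (n : D → ℤ)
    (h1 : IsPGroup p D) (h2 : ¬ p ∣ Nat.card I) (h3 : ∀ t ∈ I, ∀ u ∈ R, t u = u → t = 1)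
    (h4 : ∀ χ, LGC (β χ))
    (h5 : ∀ χ, ∀ t ∈ I, ∀ u, β χ (t u) = β χ u) (h6 : ∀ χ, ∀ u ∈ R, β χ u = (n u : ℂ) * d χ u)
    (h7 : ∀ u ∈ R, ¬ (p : ℤ) ∣ n u)
    (h8 : ∀ u ∈ R, ∀ a, (∀ t ∈ I, t u ≠ a) → ∑ χ, β χ a * (starRingEnd ℂ) (β χ u) = 0)
    (h9 : ∀ u ∈ R, ∑ χ, d χ u * (starRingEnd ℂ) (d χ u) = (Nat.card D : ℂ))
    (h10 : ∀ s : ℕ, ¬ p ∣ s → ∃ π : Equiv.Perm X, ∀ χ u, β χ (u ^ s) = β (π χ) u) :
    ∃ ε : D → ℤ, (∀ u, ε u = 1 ∨ ε u = -1) ∧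
      ∀ χ, (∀ s : ℕ, ¬ p ∣ s → ∀ u, β χ (u ^ s) = β χ u) →
        ∃ (c : ℤ) (b : Subgroup D → ℤ), ∀ u ∈ R, ∀ f : ℤ, d χ u = f →
          (p : ℤ) ^ 2 ∣ ε u * f - (c + p * ∑ᶠ V ∈ {V : Subgroup D | V.index = p ∧ u ∈ V}, b V) := by
  let _ : CommGroup D := { (inferInstance : Group D) with mul_comm := com }
  let _ : Fintype D := Fintype.ofFinite D
  exact hBPS p M hS hp2 D X R I β d n h1 h2 h3 h4 h5 h6 h7 h8 h9 h10

theorem BST (hBPS : BPS_stmt) (hBRI : BRI_stmt) (hQID : QID_stmt) (hNU : NU4_stmt) (hOR : OR4_stmt) (hDOR : DOR4_stmt)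
    (hGRG : GRG_stmt) (hRGF : RGF_stmt) (hQEU : QEU_stmt) (hQCG : QCG_stmt) (hLCG : LCG_stmt) (hZT4 : ZT4_stmt) :
    BST_stmt := by
  classical
  intro p M hS hp2 G _ _ D x θ χ h
  have hP : (⊥ : Subgroup G) ≤ D := bot_le
  have hbot : cz (⊥ : Subgroup G) = ⊤ := BST_cz_bot G
  obtain ⟨i, hi⟩ := hQID p M hS G D x θ χ h.rt ⊥ hP
  obtain ⟨n, hn⟩ := hNU p M hS hp2 G D x θ χ h ⊥ hP i hi
  have hDL : D ≤ cz (⊥ : Subgroup G) := Q1_D_le h.rt hP
  have hpg : IsPGroup p D := h.rt.dfa.pgrp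
  have hne := IrrOn_ne h.rt.th
  have hft : Fintype ↥(IrrOn (cz (⊥ : Subgroup G))) := (IrrOn_fin _).fintype
  have hTn : TT M D θ ⊓ cz (⊥ : Subgroup G) ≤ nz D := fun t ht => ht.1.1
  have hN : 0 < Nat.card G := Nat.card_pos
  obtain ⟨I, hIc, hI1, hI2⟩ := QI0 D (TT M D θ ⊓ cz (⊥ : Subgroup G)) hTn
  have hconj : ∀ t ∈ TT M D θ ⊓ cz (⊥ : Subgroup G), ∀ ψ ∈ IrrOn (cz (⊥ : Subgroup G)), ∀ u,
      ev ψ i (t * u * t⁻¹) = ev ψ i u := by
    intro t ht ψ hψ u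
    unfold ev
    rw [← finsum_comp_equiv (MulAut.conj t).toEquiv]
    refine finsum_congr fun y => ?_
    change i (t * y * t⁻¹) * ψ (t * u * t⁻¹ * (t * y * t⁻¹)) = _
    rw [hi.inv t ht y]
    have h1 : t * u * t⁻¹ * (t * y * t⁻¹) = t * (u * y) * t⁻¹ := by group
    rw [h1, IrrOn_conj hψ ht.2]
  obtain ⟨ε, hε1, hε2⟩ := BST_bps hBPS hS hp2 (QLA_D_com h.rt) ↥(IrrOn (cz (⊥ : Subgroup G)))
    {u : D | (u : G) ∈ RG M D θ} I (fun ψ u => ev ψ i u / θ 1)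
    (fun ψ u => dd M (Cz (cz (⊥ : Subgroup G)) u) θ ψ u) (fun u => n u) hpg
    (by
      rw [hIc]
      intro h1
      apply h.bet
      have h2 := Subgroup.relIndex_mul_relIndex (cz D) (TT M D θ ⊓ cz (⊥ : Subgroup G)) (TT M D θ)
        (le_inf cz_le_TT (Q1_C_le hP)) inf_le_left
      rw [← h2]
      exact Dvd.dvd.mul_right h1 _)
    (by
      intro t ht u hu htu
      obtain ⟨s, hs, hst⟩ := hI1 t ht
      have h1 : s * u = u * s := by
        have h2 := hst u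
        rw [htu] at h2
        have h3 : (u : G) * s = s * u * s⁻¹ * s := by rw [← h2]
        rw [h3]
        group
      have h2 : s ∈ cz D := hu.2 s hs.1 h1
      refine MulEquiv.ext fun v => Subtype.ext ?_
      rw [hst, MulAut.one_apply]
      have h3 := (Subgroup.mem_centralizer_iff.1 h2) v v.2
      rw [← h3]
      group)
    (by
      intro ψ
      exact QLA_h1 hLCG hQEU hQCG hS h.rt hP hi ψ.2)
    (by
      intro ψ t ht u
      obtain ⟨s, hs, hst⟩ := hI1 t ht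
      change ev ψ i ((t u : D) : G) / θ 1 = ev ψ i (u : G) / θ 1
      rw [hst, hconj s hs ψ ψ.2])
    (by
      intro ψ u hu
      exact (hn u hu).2.1 ψ ψ.2)
    (by
      intro u hu
      exact (hn u hu).1)
    (by
      intro u hu a hta
      have h1 := hOR p M hS G D x θ χ h ⊥ hP i hi a a.2 u u.2 (by
        intro t ht hta'
        obtain ⟨s, hs, hst⟩ := hI2 t ht
        exact hta s hs (Subtype.ext ((hst u).trans hta')))
      rw [← finsum_subtype_eq_finsum_cond, finsum_eq_sum_of_fintype] at h1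
      have h3 : ∀ φ : ↥(IrrOn (cz (⊥ : Subgroup G))),
          ev φ i a / θ 1 * (starRingEnd ℂ) (ev φ i u / θ 1) =
          (θ 1 * (starRingEnd ℂ) (θ 1))⁻¹ * (ev φ i a * ev φ i (u : G)⁻¹) := by
        intro φ
        rw [map_div₀, QLA_conj hQEU hQCG hS h.rt hP hi φ.2 u.2]
        have h4 : (starRingEnd ℂ) (θ 1) ≠ 0 := by
          rw [Ne, map_eq_zero]
          exact hne
        field_simp
      change ∑ φ : ↥(IrrOn (cz (⊥ : Subgroup G))),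
        ev φ i a / θ 1 * (starRingEnd ℂ) (ev φ i u / θ 1) = 0
      rw [Finset.sum_congr rfl fun φ _ => h3 φ, ← Finset.mul_sum]
      exact mul_eq_zero_of_right _ h1)
    (by
      intro u hu
      have hg := (hGRG p M hS hp2 G D x θ χ h u hu).2
      have h0 := hDOR p M hS G D x θ χ h ⊥ hP u u.2 u u.2 hg hg
      have h1 := h0.2.1 rfl
      have h2 : ∑ᶠ φ ∈ IrrOn (cz (⊥ : Subgroup G)), dd M (Cz (cz (⊥ : Subgroup G)) u) θ φ u *
            (starRingEnd ℂ) (dd M (Cz (cz (⊥ : Subgroup G)) u) θ φ u) =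
          ∑ᶠ φ ∈ Bl M (cz (⊥ : Subgroup G)) θ, dd M (Cz (cz (⊥ : Subgroup G)) u) θ φ u *
            (starRingEnd ℂ) (dd M (Cz (cz (⊥ : Subgroup G)) u) θ φ u) := by
        rw [finsum_mem_def, finsum_mem_def]
        refine finsum_congr fun φ => ?_
        by_cases hφ : φ ∈ Bl M (cz (⊥ : Subgroup G)) θ
        · rw [Set.indicator_of_mem hφ, Set.indicator_of_mem hφ.1]
        · rw [Set.indicator_of_notMem hφ]
          by_cases hφ' : φ ∈ IrrOn (cz (⊥ : Subgroup G))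
          · rw [Set.indicator_of_mem hφ', h0.1 φ hφ' hφ, zero_mul]
          · rw [Set.indicator_of_notMem hφ']
      rw [← h2, ← finsum_subtype_eq_finsum_cond, finsum_eq_sum_of_fintype] at h1
      exact h1)
    (by
      intro s hs
      obtain ⟨s', hs1, hs2, hs3⟩ := BST_crt hS.pr hN hs
      obtain ⟨π, hπ⟩ := BST_perm hZT4 (cz (⊥ : Subgroup G)) hs1
      refine ⟨π, fun ψ u => ?_⟩
      change ev ψ i ((u ^ s : D) : G) / θ 1 = ev (π ψ) i (u : G) / θ 1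
      rw [hπ, Subgroup.coe_pow, ← BST_pow hpg hS.pr hs3 u.2,
        hBRI p M hS G D x θ χ h.rt ⊥ hP i hi s' hs1 hs2 ψ ψ.2 u u.2])
  obtain ⟨εG, hp1, hp3⟩ : ∃ εG : G → ℤ, (∀ g, ∀ hg : g ∈ D, εG g = ε ⟨g, hg⟩) ∧
      ∀ g, g ∉ D → εG g = 1 :=
    ⟨fun g => if hg : g ∈ D then ε ⟨g, hg⟩ else 1, fun g hg => dif_pos hg, fun g hg => dif_neg hg⟩
  refine ⟨εG, ?_, ?_⟩
  · intro g
    by_cases hg : g ∈ D
    · rw [hp1 g hg]
      exact hε1 _
    · rw [hp3 g hg]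
      exact Or.inl rfl
  · intro m hm ψ hψ hPR
    have hψ' : ψ ∈ IrrOn (cz (⊥ : Subgroup G)) := by
      rw [hbot]
      exact hψ
    obtain ⟨c, b, hcb⟩ := hε2 ⟨ψ, hψ'⟩ (by
      intro s hs u
      obtain ⟨j, hj⟩ := hm.gen s hs
      change ev ψ i ((u ^ s : D) : G) / θ 1 = ev ψ i (u : G) / θ 1
      have h1 : (m ^ j).Coprime (Nat.card G) := Nat.Coprime.pow_left j hm.cop
      have h2 : ∀ d : ℕ, d ∣ Nat.card G → ¬ p ∣ d → m ^ j ≡ 1 [MOD d] := by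
        intro d hd hpd
        have h3 := (hm.reg d hd hpd).pow j
        rwa [one_pow] at h3
      rw [Subgroup.coe_pow, ← BST_pow hpg hS.pr hj u.2,
        hBRI p M hS G D x θ χ h.rt ⊥ hP i hi (m ^ j) h1 h2 ψ hψ' u u.2]
      have h4 : (fun g => ψ (g ^ m ^ j)) = ψ := funext (BST_PR hPR j)
      rw [h4])
    refine ⟨c, b, fun u hu f hf => ?_⟩
    have h3 := hcb u hu f (by
      change dd M (Cz (cz (⊥ : Subgroup G)) (u : G)) θ ψ u = f
      rw [hbot]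
      exact hf)
    rw [hp1 u u.2]
    exact h3

end Pool.Agent.FI4B
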